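import Pool.Agent.Helper14.MW.Gap

/-!
# Invariant properties: the clique-width of the members is bounded or large

Compare `Pool/Agent/Helper14/MW/Gap.lean`: in place of a monadic second-order sentence a property which is
invariant under the back-and-forth equivalence `MEq n q`.
-/

set_option autoImplicit false

namespace Pool.Agent.Helper14.GW

open Pool.Agent.Helper20.Spectra Pool.Agent.Helper20.OP Pool.Agent.Helper29.TD
  Pool.Agent.Helper29.TW Pool.Agent.Helper29.CW Pool.Agent.Helper29.MW Pool.Agent.Helper14.MW Filter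

/-- isomorphic structures are equivalent -/
theorem meq_iso (n q : ℕ) : ∀ {S : Type} {ar : S → ℕ} {M N : Type} (I : Interp S ar M)
    (J : Interp S ar N) (e : M ≃ N), (∀ (s : S) (v : Fin (ar s) → M), I s v ↔ J s (fun i => e (v i))) →
    MEq n q I J := by
  induction n with
  | zero =>
    intro S ar M N I J e h
    have h1 := BF.emb (I := I) (J := J) (X := Set.univ) (fun x => e x) Set.univ
      (fun a _ b _ hab => e.injective hab) (fun s v _ => h s v) (fun _ _ => trivial) q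
      (P := ∅) (fun p hp => absurd hp (Set.notMem_empty p))
    have h2 : (fun x => e x) '' Set.univ = Set.univ := by
      rw [Set.image_univ]
      exact e.surjective.range_eq
    rw [h2] at h1
    exact h1
  | succ n ih =>
    intro S ar M N I J e h
    constructor
    · intro A
      refine ⟨e.symm ⁻¹' A, ih _ _ e ?_⟩
      rintro (_ | s) v
      · change v (0 : Fin 1) ∈ A ↔ e.symm (e (v (0 : Fin 1))) ∈ A
        rw [e.symm_apply_apply]
      · exact h s v
    · intro B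
      refine ⟨e ⁻¹' B, ih _ _ e ?_⟩
      rintro (_ | s) v
      · exact Iff.rfl
      · exact h s v

variable {S : Type} {ar : S → ℕ}

theorem phi_iso {Φ : ∀ M : Type, Interp S ar M → Prop} {n₀ q₀ : ℕ}
    (hΦ : ∀ (M N : Type) (I : Interp S ar M) (J : Interp S ar N), MEq n₀ q₀ I J → (Φ M I ↔ Φ N J))
    {M N : Type} (I : Interp S ar M) (e : M ≃ N) :
    Φ M I ↔ Φ N (fun s v => I s (fun i => e.symm (v i))) := by
  refine hΦ _ _ _ _ (meq_iso n₀ q₀ _ _ e fun s v => ?_)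
  change I s v ↔ I s (fun i => e.symm (e (v i)))
  rw [show (fun i => e.symm (e (v i))) = v from funext fun i => e.symm_apply_apply _]

theorem not_linked_clique_sem [Finite S] (har : ∀ s, ar s ≤ 2) (w : ℕ → ℕ)
    (hw : ∀ d, ∀ᶠ n in atTop, E d (w n) ≤ n) (Φ : ∀ M : Type, Interp S ar M → Prop) (n₀ q₀ : ℕ)
    (hΦ : ∀ (M N : Type) (I : Interp S ar M) (J : Interp S ar N), MEq n₀ q₀ I J → (Φ M I ↔ Φ N J))
    (N1 : ℕ) (hφ : ∀ (n : ℕ) (I : Interp S ar (Fin n)), N1 ≤ n → Φ _ I → CwLe I (w n)) :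
    ∃ k, 1 ≤ k ∧ ∀ (n : ℕ) (I : Interp S ar (Fin n)), 1 ≤ n → Φ _ I →
      ∀ W : Set (Fin n), ¬ Lnk I k (NN S k) W := by
  classical
  obtain ⟨F, ⟨c, hF⟩, hdown⟩ := mpump_down (S := S) (ar := ar) n₀ q₀
  obtain ⟨N0', hN0'⟩ := eventually_atTop.1 (hw (c + 4))
  obtain ⟨N0, hN0, hN01⟩ : ∃ N0, (∀ n, N0 ≤ n → E (c + 4) (w n) ≤ n) ∧ N1 ≤ N0 :=
    ⟨N0' + N1, fun n hn => hN0' n (by omega), by omega⟩
  by_contra hcon
  push Not at hcon
  obtain ⟨n, I, hn, hI, W₀, hW₀⟩ := hcon (N0 + 1) (by omega)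
  have hNN : ∀ k, k < NN S k := by
    intro k
    unfold NN DD
    nlinarith [Nat.zero_le (Nat.card S), Nat.zero_le (Nat.card S * k)]
  have hle : ∀ (k : ℕ) (W : Set (Fin n)), Lnk I k (NN S k) W → k ≤ n := by
    intro k W h
    have h1 := Set.ncard_le_card W
    rw [h.1] at h1
    have h2 := hNN k
    simp only [Nat.card_fin] at h1
    omega
  let Q : ℕ → Prop := fun k => ∃ W : Set (Fin n), Lnk I k (NN S k) W
  have h0 : Q (N0 + 1) := ⟨W₀, hW₀⟩
  have hb : N0 + 1 ≤ n := hle _ _ hW₀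
  obtain ⟨k, hk, hkQ, hmax⟩ : ∃ k, N0 + 1 ≤ k ∧ Q k ∧ ¬ Q (k + 1) := by
    refine ⟨Nat.findGreatest Q n, Nat.le_findGreatest hb h0, Nat.findGreatest_spec hb h0, ?_⟩
    intro h1
    obtain ⟨W, hW⟩ := h1
    have h2 := hle _ _ hW
    have h3 : Nat.findGreatest Q n + 1 ≤ Nat.findGreatest Q n :=
      Nat.le_findGreatest h2 ⟨W, hW⟩
    omega
  obtain ⟨W, hW⟩ := hkQ
  have : Nonempty (Fin n) := ⟨⟨0, by omega⟩⟩
  obtain ⟨l, hl⟩ := up har I (k + 1) (fun W' h => hmax ⟨W', h⟩)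
  obtain ⟨V, J, l', e, hG, hJ⟩ := hl.exists_gen
  have hL : Lnk J k (NN S k) (e '' W) := by
    rw [hJ]
    exact hW.map e
  obtain ⟨V', J', l'', W', hG', hty, hL', hcard⟩ := hdown k (by omega) V J l' _ hG hL
  have := hG'.finite
  have hsat : Φ _ J' := by
    refine (hΦ _ _ _ _ (meq_of_mlty n₀ q₀ hty)).2 ?_
    rw [hJ]
    exact (phi_iso hΦ I e).1 hI
  have hfin := (phi_iso hΦ J' (Finite.equivFin V')).1 hsat
  have hLfin := hL'.map (Finite.equivFin V')
  have hn' : k ≤ Nat.card V' := by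
    have h1 := Set.ncard_le_card W'
    rw [hL'.1] at h1
    have h2 := hNN k
    omega
  have hcw := hφ _ _ (by omega) hfin
  have hkw : k ≤ w (Nat.card V') := by
    by_contra hlt
    push Not at hlt
    refine low (n := NN S k) (by have := hNN k; omega) hcw (Finite.equivFin V' '' W') ?_
    exact ⟨hLfin.1, fun Z hZ => hLfin.2 Z (hZ.mono hlt.le)⟩
  have h1 := hN0 (Nat.card V') (by omega)
  have h2 : E (c + 4) k ≤ E (c + 4) (w (Nat.card V')) := E_mono _ hkw
  have h3 : E (c + 3) k < E (c + 4) k := E_succ_le _ _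
  have h4 : E c (k + 2) ≤ E (c + 3) k := by
    rw [← E_add]
    apply E_mono
    have a1 : k < E 1 k := E_succ_le 0 k
    have a2 : E 1 k < E 2 k := E_succ_le 1 k
    have a3 : E 2 k < E 3 k := E_succ_le 2 k
    omega
  have h5 := hF k
  omega

/-- If all large structures in an invariant class have small clique-width, then the clique-width of the
structures in the class is bounded and their sizes are ultimately periodic. -/
theorem bounded_clique_sem [Finite S] (har : ∀ s, ar s ≤ 2) (w : ℕ → ℕ)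
    (hw : ∀ d, ∀ᶠ n in atTop, E d (w n) ≤ n) (Φ : ∀ M : Type, Interp S ar M → Prop) (n₀ q₀ : ℕ)
    (hΦ : ∀ (M N : Type) (I : Interp S ar M) (J : Interp S ar N), MEq n₀ q₀ I J → (Φ M I ↔ Φ N J))
    (N1 : ℕ) (h1 : ∀ (n : ℕ) (I : Interp S ar (Fin n)), N1 ≤ n → Φ _ I → CwLe I (w n)) :
    (∃ L, ∀ (n : ℕ) (I : Interp S ar (Fin n)), 1 ≤ n → Φ _ I → CwLe I L) ∧
      UltPeriodic {n : ℕ | 1 ≤ n ∧ ∃ I : Interp S ar (Fin n), Φ _ I} := by
  classical
  obtain ⟨k, hk, hnl⟩ := not_linked_clique_sem har w hw Φ n₀ q₀ hΦ N1 h1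
  refine ⟨⟨KK S k + KK S k, ?_⟩, ?_⟩
  · intro n I hn hI
    have : Nonempty (Fin n) := ⟨⟨0, by omega⟩⟩
    obtain ⟨l, hl⟩ := up har I k (hnl n I hn hI)
    exact hl.cwLe har
  · obtain ⟨p, N, hp, hup⟩ := mpump_up (S := S) (ar := ar) n₀ q₀ (KK S k)
    refine ultPeriodic_of_add hp (N := N) (fun n hn hA => ?_)
    obtain ⟨hn1, I, hI⟩ := hA
    have : Nonempty (Fin n) := ⟨⟨0, by omega⟩⟩
    obtain ⟨l, hl⟩ := up har I k (hnl n I hn1 hI)
    obtain ⟨V, J, l', e, hG, hJ⟩ := hl.exists_gen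
    have hcV : Nat.card V = n := by
      rw [← Nat.card_congr e, Nat.card_fin]
    obtain ⟨V', J', l'', hG', hty, hc'⟩ := hup V J l' hG (by rw [hcV]; exact hn)
    have := hG'.finite
    have hsat : Φ _ J' := by
      refine (hΦ _ _ _ _ (meq_of_mlty n₀ q₀ hty)).2 ?_
      rw [hJ]
      exact (phi_iso hΦ I e).1 hI
    have hfin := (phi_iso hΦ J' (Finite.equivFin V')).1 hsat
    rw [hcV] at hc'
    refine ⟨by omega, ?_⟩
    rw [← hc']
    exact ⟨_, hfin⟩

end Pool.Agent.Helper14.GW
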